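import Mathlib
import Pool.Agent.H184R3.SP.FinalAll

set_option autoImplicit false
namespace Pool.Agent.Y942.SP
open Finset Pool.Agent.H184R3.SP

theorem exists_rq (δ : ℝ) (hδ : 0 < δ) (hδ1 : δ ≤ 1) : ∃ r : ℕ, 1 ≤ r ∧
    1 / (3 * (((28 * r + 2 : ℕ) : ℝ)) ^ 2) ≤ δ / 4 ∧
    (255 / 256 : ℝ) ^ r ≤ (1 / (3 * (((28 * r + 2 : ℕ) : ℝ)) ^ 2)) / 4 ∧
    δ / (5 * 10 ^ 11) ≤ 1 / (3 * (((28 * r + 2 : ℕ) : ℝ)) ^ 2) := by
  classical
  have hex : ∃ m : ℕ, 1 ≤ (m : ℝ) ^ 2 * δ := by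
    obtain ⟨m, hm⟩ := exists_nat_gt (1 / δ)
    refine ⟨m + 1, ?_⟩
    rw [div_lt_iff₀ hδ] at hm
    push_cast
    have h0 : (0 : ℝ) ≤ m := Nat.cast_nonneg m
    nlinarith [mul_nonneg h0 hδ.le, mul_nonneg (mul_nonneg h0 h0) hδ.le]
  set m : ℕ := Nat.find hex with hm
  have hm1 : 1 ≤ (m : ℝ) ^ 2 * δ := Nat.find_spec hex
  have hmpos : 1 ≤ m := by
    by_contra hc
    have : m = 0 := by omega
    rw [this] at hm1
    norm_num at hm1
  have hm4 : (m : ℝ) ^ 2 * δ ≤ 4 := by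
    rcases Nat.lt_or_ge m 2 with h | h
    · have : m = 1 := by omega
      rw [this]
      norm_num
      linarith
    · have h2 := Nat.find_min hex (show m - 1 < m by omega)
      push Not at h2
      have h3 : (m : ℝ) ≤ 2 * ((m - 1 : ℕ) : ℝ) := by
        have : m ≤ 2 * (m - 1) := by omega
        exact_mod_cast this
      have h4 : (m : ℝ) ^ 2 ≤ (2 * ((m - 1 : ℕ) : ℝ)) ^ 2 := pow_le_pow_left₀ (Nat.cast_nonneg _) h3 2
      have h5 := mul_le_mul_of_nonneg_right h4 hδ.le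
      nlinarith
  have hmr : (1 : ℝ) ≤ m := by exact_mod_cast hmpos
  clear_value m
  have hLlow : (196000 : ℝ) * m ≤ ((28 * (7000 * m) + 2 : ℕ) : ℝ) := by
    push_cast; linarith
  have hLup : ((28 * (7000 * m) + 2 : ℕ) : ℝ) ≤ 196002 * m := by
    push_cast; linarith
  refine ⟨7000 * m, by omega, ?_, ?_, ?_⟩
  · have h1 : ((196000 : ℝ) * m) ^ 2 ≤ (((28 * (7000 * m) + 2 : ℕ) : ℝ)) ^ 2 :=
      pow_le_pow_left₀ (by positivity) hLlow 2
    have hLp : (0 : ℝ) < (((28 * (7000 * m) + 2 : ℕ) : ℝ)) := by positivity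
    generalize (((28 * (7000 * m) + 2 : ℕ) : ℝ)) = L at *
    rw [div_le_iff₀ (by positivity)]
    have h2 := mul_le_mul_of_nonneg_right h1 hδ.le
    nlinarith
  · have h1 : (((28 * (7000 * m) + 2 : ℕ) : ℝ)) ^ 2 ≤ (196002 * m) ^ 2 :=
      pow_le_pow_left₀ (by positivity) hLup 2
    have hLp : (0 : ℝ) < (((28 * (7000 * m) + 2 : ℕ) : ℝ)) := by positivity
    generalize (((28 * (7000 * m) + 2 : ℕ) : ℝ)) = L at *
    have hq0 : (255 / 256 : ℝ) ^ 250 ≤ 376 / 1000 := by norm_num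
    have hq1 : (255 / 256 : ℝ) ^ 7000 ≤ 13 / 10 ^ 13 := by
      calc (255 / 256 : ℝ) ^ 7000 = ((255 / 256 : ℝ) ^ 250) ^ 28 := by rw [← pow_mul]
        _ ≤ (376 / 1000 : ℝ) ^ 28 := pow_le_pow_left₀ (by positivity) hq0 28
        _ ≤ 13 / 10 ^ 13 := by norm_num
    have hq2 : (255 / 256 : ℝ) ^ (7000 * m) * (m : ℝ) ^ 2 ≤ 13 / 10 ^ 13 := by
      rw [pow_mul]
      obtain ⟨t, rfl⟩ : ∃ t, m = t + 1 := ⟨m - 1, by omega⟩
      have hq3 : ((255 / 256 : ℝ) ^ 7000) ^ t ≤ (1 / 4 : ℝ) ^ t :=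
        pow_le_pow_left₀ (by positivity) (hq1.trans (by norm_num)) t
      have ht : (((t + 1 : ℕ) : ℝ)) ≤ 2 ^ t := by exact_mod_cast Nat.lt_two_pow_self
      have ht2 : (((t + 1 : ℕ) : ℝ)) ^ 2 ≤ (2 ^ t) ^ 2 := pow_le_pow_left₀ (by positivity) ht 2
      have hkey : ((255 / 256 : ℝ) ^ 7000) ^ t * (((t + 1 : ℕ) : ℝ)) ^ 2 ≤ 1 := by
        calc ((255 / 256 : ℝ) ^ 7000) ^ t * (((t + 1 : ℕ) : ℝ)) ^ 2
            ≤ (1 / 4 : ℝ) ^ t * (2 ^ t) ^ 2 := mul_le_mul hq3 ht2 (by positivity) (by positivity)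
          _ = 1 := by rw [← pow_mul, mul_comm t 2, pow_mul, ← mul_pow]; norm_num
      have hqpos : (0 : ℝ) < (255 / 256 : ℝ) ^ 7000 := by positivity
      calc ((255 / 256 : ℝ) ^ 7000) ^ (t + 1) * (((t + 1 : ℕ) : ℝ)) ^ 2
          = ((255 / 256 : ℝ) ^ 7000) * (((255 / 256 : ℝ) ^ 7000) ^ t * (((t + 1 : ℕ) : ℝ)) ^ 2) := by
            rw [pow_succ]; ring
        _ ≤ ((255 / 256 : ℝ) ^ 7000) * 1 := mul_le_mul_of_nonneg_left hkey hqpos.le
        _ ≤ 13 / 10 ^ 13 := by rw [mul_one]; exact hq1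
    rw [div_div, le_div_iff₀ (by positivity)]
    have hp0 : (0 : ℝ) < (255 / 256 : ℝ) ^ (7000 * m) := by positivity
    generalize (255 / 256 : ℝ) ^ (7000 * m) = P at *
    have h3 : P * (3 * L ^ 2 * 4) ≤ P * (3 * (196002 * m) ^ 2 * 4) :=
      mul_le_mul_of_nonneg_left (by linarith) hp0.le
    calc P * (3 * L ^ 2 * 4) ≤ P * (3 * (196002 * m) ^ 2 * 4) := h3
      _ = (12 * 196002 ^ 2) * (P * (m : ℝ) ^ 2) := by ring
      _ ≤ (12 * 196002 ^ 2) * (13 / 10 ^ 13) := mul_le_mul_of_nonneg_left hq2 (by norm_num)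
      _ ≤ 1 := by norm_num
  · have h1 : (((28 * (7000 * m) + 2 : ℕ) : ℝ)) ^ 2 ≤ (196002 * m) ^ 2 :=
      pow_le_pow_left₀ (by positivity) hLup 2
    have hLp : (0 : ℝ) < (((28 * (7000 * m) + 2 : ℕ) : ℝ)) := by positivity
    generalize (((28 * (7000 * m) + 2 : ℕ) : ℝ)) = L at *
    rw [div_le_div_iff₀ (by positivity) (by positivity)]
    have h2 := mul_le_mul_of_nonneg_right h1 hδ.le
    nlinarith

theorem low_num (δ α : ℝ) (hδ : 0 < δ) (h : δ / (5 * 10 ^ 11) ≤ α) : δ ^ 2 / 10 ^ 25 ≤ α ^ 2 / 16 := by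
  have h1 : (δ / (5 * 10 ^ 11)) ^ 2 ≤ α ^ 2 := pow_le_pow_left₀ (by positivity) h 2
  have h2 : (δ / (5 * 10 ^ 11)) ^ 2 / 16 = δ ^ 2 / (16 * 25 * 10 ^ 22) := by
    rw [div_pow, div_div]; norm_num
  have h3 : δ ^ 2 / 10 ^ 25 ≤ δ ^ 2 / (16 * 25 * 10 ^ 22) :=
    div_le_div_of_nonneg_left (by positivity) (by positivity) (by norm_num)
  linarith

set_option maxHeartbeats 4000000 in
theorem main_nq (δ : ℝ) (hδ : 0 < δ) (hδ1 : δ ≤ 1) : ∃ ε : ℝ, δ ^ 2 / 10 ^ 25 ≤ ε ∧ 0 < ε ∧ ε ≤ 1 / 100 ∧ ∃ L : ℕ, 1 ≤ L ∧ ∃ n1 : ℕ, ∀ n : ℕ, n1 ≤ n →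
    ∀ k : ℕ, k = 3 * L ^ 2 * n ^ 4 → ∃ w : List ℕ,
    (∀ x ∈ w, x < ⌊(1 + δ / 2) * (k : ℝ)⌋₊) ∧
    (∀ σ : Equiv.Perm (Fin k), ∃ e : Fin k → Fin w.length,
          StrictMono e ∧ ∀ i j : Fin k, (w.get (e i) < w.get (e j) ↔ σ i < σ j)) ∧
    (w.length : ℝ) ≤ (1 / 2 - 2 * ε) * ((k : ℝ) ^ 2) := by
  obtain ⟨r, hr1, hα, hp, hαlow⟩ := exists_rq δ hδ hδ1
  set L : ℕ := 28 * r + 2 with hL
  clear_value L
  have hL30 : 30 ≤ L := by omega
  have hLr : (30 : ℝ) ≤ (L : ℝ) := by exact_mod_cast hL30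
  set α : ℝ := 1 / (3 * (L : ℝ) ^ 2) with hαd
  have hαpos : 0 < α := by positivity
  have hα12 : α ≤ 1 / 12 := by
    rw [hαd]
    apply one_div_le_one_div_of_le (by norm_num)
    nlinarith
  clear_value α
  set p : ℝ := (255 / 256 : ℝ) ^ r with hpd
  have hp0 : 0 < p := by positivity
  have hp1 : p ≤ 1 := pow_le_one₀ (by norm_num) (by norm_num)
  clear_value p
  set h : ℕ := 8 * L with hh
  clear_value h
  set η : ℝ := α ^ 2 / 16 / 4 ^ h with hη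
  clear_value η
  have h4pos : (0 : ℝ) < 4 ^ h := by positivity
  have hηpos : 0 < η := by rw [hη]; positivity
  have hη1 : η ≤ 1 := by
    rw [hη, div_le_one h4pos]
    have : (1 : ℝ) ≤ 4 ^ h := one_le_pow₀ (by norm_num)
    nlinarith
  have hη4 : η * 4 ^ h = α ^ 2 / 16 := by
    rw [hη]; field_simp
  obtain ⟨n0, hn01, hn0⟩ := exists_word h (3 * L ^ 2 + 2) (by omega) η hηpos hη1
  obtain ⟨n1, hn1⟩ := exists_nat_gt (32 / α ^ 2)
  refine ⟨α ^ 2 / 16, low_num δ α hδ hαlow, by positivity, by nlinarith, L, by omega, max (max n0 n1) 2, ?_⟩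
  intro n hnmax k hk
  have hnn0 : n0 ≤ n := le_trans (le_trans (le_max_left _ _) (le_max_left _ _)) hnmax
  have hnn1 : n1 ≤ n := le_trans (le_trans (le_max_right _ _) (le_max_left _ _)) hnmax
  have hn2 : 2 ≤ n := le_trans (le_max_right _ _) hnmax
  obtain ⟨g, hg⟩ := hn0 n hnn0
  set Q : ℕ := n ^ 4 with hQ
  clear_value Q
  have hnQ : n ≤ Q := by
    rw [hQ]; exact Nat.le_self_pow (by norm_num) n
  have hLL : 1 ≤ L ^ 2 := Nat.one_le_pow _ _ (by omega)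
  have hQk : 3 * Q ≤ k := by
    rw [hk]
    calc 3 * Q = 3 * 1 * Q := by ring
      _ ≤ 3 * L ^ 2 * Q := Nat.mul_le_mul_right _ (Nat.mul_le_mul_left _ hLL)
  have hRval : (3 * L ^ 2 + 2) * Q = k + Q + Q := by rw [hk]; ring
  have hLk : 8 * L ≤ k := by
    rw [hk]
    have h1 : 8 * L ≤ 3 * L ^ 2 := by nlinarith
    calc 8 * L ≤ 3 * L ^ 2 := h1
      _ = 3 * L ^ 2 * 1 := by ring
      _ ≤ 3 * L ^ 2 * Q := Nat.mul_le_mul_left _ (by omega)
  set N : ℕ := k + Q + 3 * n ^ 3 with hN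
  set bd : ℝ := ((k - 1 : ℕ) : ℝ) * (1 / 2 + η * 4 ^ h) - Q * ((1 - p) / 2) with hbd
  set T : ℕ := ⌊bd⌋₊ + 1 with hT
  clear_value N bd T
  -- real estimates
  have hnr : (n : ℝ) > 32 / α ^ 2 := lt_of_lt_of_le hn1 (by exact_mod_cast hnn1)
  have hnα : 32 < (n : ℝ) * α ^ 2 := by
    rw [gt_iff_lt, div_lt_iff₀ (by positivity)] at hnr
    exact hnr
  have hnpos : (0 : ℝ) < n := by
    have : 0 < n := by omega
    exact_mod_cast this
  have hkr : (k : ℝ) = (Q : ℝ) / α := by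
    rw [hk, hαd]; push_cast; field_simp
  have hQr : (Q : ℝ) = α * k := by rw [hkr]; field_simp
  have hkpos : (0 : ℝ) < k := by
    have : 0 < k := by omega
    exact_mod_cast this
  have hQn : (Q : ℝ) = (n : ℝ) ^ 4 := by rw [hQ]; push_cast; ring
  have h3n : 3 * (n : ℝ) ^ 3 ≤ α ^ 2 / 16 * k := by
    -- n^3 * 32 ≤ n^4 α^2 = Q α^2 ≤ k α^2 * α
    have h1 : 32 * (n : ℝ) ^ 3 ≤ (Q : ℝ) * α ^ 2 := by
      rw [hQn]
      have := mul_le_mul_of_nonneg_right hnα.le (show (0 : ℝ) ≤ (n : ℝ) ^ 3 by positivity)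
      calc 32 * (n : ℝ) ^ 3 ≤ (n : ℝ) * α ^ 2 * (n : ℝ) ^ 3 := this
        _ = _ := by ring
    rw [hQr] at h1
    have h2 : α * k * α ^ 2 ≤ (1 / 12) * (k * α ^ 2) := by
      have : α * (k * α ^ 2) ≤ (1 / 12) * (k * α ^ 2) :=
        mul_le_mul_of_nonneg_right hα12 (by positivity)
      linarith
    nlinarith [show (0:ℝ) < k * α ^ 2 by positivity]
  have h1k : 1 ≤ α ^ 2 / 32 * k := by
    have hnk : (n : ℝ) ≤ k := by
      have : n ≤ k := by omega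
      exact_mod_cast this
    have := mul_le_mul_of_nonneg_right hnk (show (0 : ℝ) ≤ α ^ 2 by positivity)
    linarith
  have hk1 : ((k - 1 : ℕ) : ℝ) ≤ k := by exact_mod_cast Nat.sub_le k 1
  have hk1' : ((k - 1 : ℕ) : ℝ) = (k : ℝ) - 1 := by
    rw [Nat.cast_sub (by omega)]; norm_num
  have hbd0 : 0 ≤ bd := by
    rw [hbd, hη4, hk1', hQr]
    have e3 : (2 : ℝ) ≤ k := by
      have : 2 ≤ k := by omega
      exact_mod_cast this
    exact num_bd0 α p k hαpos hα12 hp0 hp1 e3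
  have hTle : (T : ℝ) ≤ bd + 1 := by
    rw [hT]; push_cast
    have := Nat.floor_le hbd0
    linarith
  have hbdle : bd + 1 ≤ (k / 2) * (1 - α + 7 / 16 * α ^ 2) := by
    rw [hbd, hη4, hQr]
    exact num_bd α p k _ hαpos hkpos hp hk1 h1k
  have hNle : (N : ℝ) ≤ k * (1 + α + α ^ 2 / 16) := by
    rw [hN]; push_cast
    rw [hQr]
    linarith
  refine ⟨word N T g, ?_, ?_, ?_⟩
  · intro x hx
    have h1 := word_lt N T g (by omega) x hx
    refine lt_of_lt_of_le h1 ?_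
    apply Nat.le_floor
    refine hNle.trans ?_
    rw [mul_comm]
    apply mul_le_mul_of_nonneg_right _ hkpos.le
    nlinarith
  · intro σ
    let s : ℕ → ℕ := fun i => if hi : i < k then (σ ⟨i, hi⟩).val else 0
    have hsdef : ∀ i : Fin k, s i.val = (σ i).val := by
      intro i
      simp only [s]
      rw [dif_pos i.2]
    have hs : Pat k s := by
      refine ⟨?_, ?_, ?_⟩
      · intro i hi
        rw [hsdef ⟨i, hi⟩]
        exact (σ ⟨i, hi⟩).2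
      · intro i hi j hj hij
        rw [hsdef ⟨i, hi⟩, hsdef ⟨j, hj⟩] at hij
        have := σ.injective (Fin.ext hij)
        exact congrArg Fin.val this
      · intro t ht
        refine ⟨(σ.symm ⟨t, ht⟩).val, (σ.symm ⟨t, ht⟩).2, ?_⟩
        rw [hsdef]
        simp
    have hg' := hg
    rw [hh] at hg'
    obtain ⟨l, hlmono, hlt, hD⟩ := pattern_bound L r k Q n ((3 * L ^ 2 + 2) * Q) η hηpos (by omega)
      (by omega) (by omega) (by omega) (by omega)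
      (by
        rw [Nat.le_div_iff_mul_le (by omega), hk]
        have : 2 * L + 1 ≤ 3 * L := by omega
        calc Q * (2 * L + 1) * L ≤ Q * (3 * L) * L := by
              apply Nat.mul_le_mul_right
              exact Nat.mul_le_mul_left _ this
          _ = 3 * L ^ 2 * Q := by ring) g hg' s hs
    rw [← hh, ← hpd, ← hbd] at hD
    rw [← hN] at hlt
    have hDT : ∑ i ∈ range (k - 1), des g (l (s i)) (l (s (i + 1))) < T := by
      rw [hT]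
      exact Nat.lt_succ_of_le (Nat.le_floor hD)
    obtain ⟨e, he, hget⟩ := word_embed N T g k (fun i => l (s i))
      (fun i hi => hlt _ (hs.lt i hi))
      (by
        intro i hi
        have hne : s i ≠ s (i + 1) := by
          intro hc
          have := hs.inj i (by omega) (i + 1) hi hc
          omega
        rcases lt_or_gt_of_ne hne with h1 | h1
        · exact (hlmono _ _ h1).ne
        · exact (hlmono _ _ h1).ne') hDT
    refine ⟨e, he, ?_⟩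
    intro i j
    rw [hget i, hget j]
    show l (s i.val) < l (s j.val) ↔ σ i < σ j
    rw [hsdef i, hsdef j]
    constructor
    · intro h1
      by_contra h2
      push Not at h2
      rcases lt_or_eq_of_le h2 with h3 | h3
      · have := hlmono _ _ (show (σ j).val < (σ i).val from h3)
        omega
      · rw [h3] at h1
        exact lt_irrefl _ h1
    · intro h1
      exact hlmono _ _ h1
  · rw [word_length]
    push_cast
    have hN0 : (0 : ℝ) ≤ N := Nat.cast_nonneg _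
    exact num_final α k T N hαpos hα12 hkpos (hTle.trans hbdle) hN0 hNle



theorem main_allq (δ : ℝ) (hδ : 0 < δ) (hδ1 : δ ≤ 1) : ∃ ε : ℝ, δ ^ 2 / 10 ^ 25 ≤ ε ∧ ∃ K : ℕ, ∀ k : ℕ, K ≤ k → ∃ w : List ℕ,
    (∀ x ∈ w, x < ⌊(1 + δ) * (k : ℝ)⌋₊) ∧
    (∀ σ : Equiv.Perm (Fin k), ∃ e : Fin k → Fin w.length,
          StrictMono e ∧ ∀ i j : Fin k, (w.get (e i) < w.get (e j) ↔ σ i < σ j)) ∧
    (w.length : ℝ) ≤ (1 / 2 - ε) * ((k : ℝ) ^ 2) := by
  obtain ⟨ε, hεlow, hε, hε1, L, hL, n1, hn1⟩ := main_nq δ hδ hδ1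
  -- a ratio bound
  have h1 : Filter.Tendsto (fun n : ℕ => ((n : ℝ) + 1) / n) Filter.atTop (nhds 1) := by
    have : Filter.Tendsto (fun n : ℕ => (1 : ℝ) + 1 / n) Filter.atTop (nhds (1 + 0)) :=
      tendsto_const_nhds.add tendsto_one_div_atTop_nhds_zero_nat
    rw [add_zero] at this
    refine this.congr' ?_
    filter_upwards [Filter.eventually_gt_atTop 0] with n hn
    have : (n : ℝ) ≠ 0 := by positivity
    field_simp
  have h2 : Filter.Tendsto (fun n : ℕ => (((n : ℝ) + 1) / n) ^ 4) Filter.atTop (nhds 1) := by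
    have := h1.pow 4
    simpa using this
  have h3 : Filter.Tendsto (fun n : ℕ => ((((n : ℝ) + 1) / n) ^ 4) ^ 2) Filter.atTop (nhds 1) := by
    have := h2.pow 2
    simpa using this
  have e2 := h2.eventually (gt_mem_nhds (show (1 : ℝ) < (1 + δ) / (1 + δ / 2) by
    rw [lt_div_iff₀ (by linarith)]; linarith))
  have e3 := h3.eventually (gt_mem_nhds (show (1 : ℝ) < (1 / 2 - ε) / (1 / 2 - 2 * ε) by
    rw [lt_div_iff₀ (by linarith)]; linarith))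
  obtain ⟨m, hm⟩ := Filter.eventually_atTop.mp (e2.and e3)
  set M : ℕ := max (max m n1) 1 with hM
  refine ⟨ε, hεlow, 3 * L ^ 2 * M ^ 4 + 1, ?_⟩
  intro k hk
  have hex : ∃ n : ℕ, k ≤ 3 * L ^ 2 * n ^ 4 := by
    refine ⟨k, ?_⟩
    have hLL : 1 ≤ L ^ 2 := Nat.one_le_pow _ _ (by omega)
    calc k ≤ k ^ 4 := Nat.le_self_pow (by norm_num) k
      _ = 1 * k ^ 4 := by ring
      _ ≤ 3 * L ^ 2 * k ^ 4 := Nat.mul_le_mul_right _ (by omega)
  classical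
  set n : ℕ := Nat.find hex with hn
  have hnk : k ≤ 3 * L ^ 2 * n ^ 4 := Nat.find_spec hex
  have hMn : M < n := by
    by_contra hcon
    push Not at hcon
    have : 3 * L ^ 2 * n ^ 4 ≤ 3 * L ^ 2 * M ^ 4 :=
      Nat.mul_le_mul_left _ (Nat.pow_le_pow_left hcon 4)
    omega
  have hnpred : 3 * L ^ 2 * (n - 1) ^ 4 < k := by
    have := Nat.find_min hex (show n - 1 < n by omega)
    omega
  have hmM : m ≤ M := le_trans (le_max_left _ _) (le_max_left _ _)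
  have hn1M : n1 ≤ M := le_trans (le_max_right _ _) (le_max_left _ _)
  obtain ⟨w, hw1, hw2, hw3⟩ := hn1 n (by omega) (3 * L ^ 2 * n ^ 4) rfl
  obtain ⟨a2, a3⟩ := hm (n - 1) (by omega)
  have hcast : ((n - 1 : ℕ) : ℝ) + 1 = n := by
    rw [Nat.cast_sub (by omega)]; ring
  rw [hcast] at a2 a3
  have hn1pos : (0 : ℝ) < ((n - 1 : ℕ) : ℝ) := by
    have : 0 < n - 1 := by omega
    exact_mod_cast this
  set k' : ℕ := 3 * L ^ 2 * n ^ 4 with hk'
  have hkpos : (0 : ℝ) < k := by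
    have : 0 < k := by omega
    exact_mod_cast this
  have hratio : (k' : ℝ) ≤ k * (((n : ℝ) / ((n - 1 : ℕ) : ℝ)) ^ 4) := by
    have h5 : ((3 * L ^ 2 * (n - 1) ^ 4 : ℕ) : ℝ) ≤ k := by exact_mod_cast hnpred.le
    rw [div_pow, mul_div_assoc', le_div_iff₀ (by positivity)]
    rw [hk']
    push_cast at h5 ⊢
    have := mul_le_mul_of_nonneg_right h5 (show (0 : ℝ) ≤ (n : ℝ) ^ 4 by positivity)
    calc (3 * (L : ℝ) ^ 2 * (n : ℝ) ^ 4) * ((n - 1 : ℕ) : ℝ) ^ 4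
        = 3 * (L : ℝ) ^ 2 * ((n - 1 : ℕ) : ℝ) ^ 4 * (n : ℝ) ^ 4 := by ring
      _ ≤ _ := this
  refine ⟨w, ?_, restrict k k' hnk w hw2, ?_⟩
  · intro x hx
    refine lt_of_lt_of_le (hw1 x hx) ?_
    apply Nat.floor_le_floor
    have h6 : (k' : ℝ) ≤ k * ((1 + δ) / (1 + δ / 2)) :=
      hratio.trans (mul_le_mul_of_nonneg_left a2.le hkpos.le)
    calc (1 + δ / 2) * (k' : ℝ) ≤ (1 + δ / 2) * (k * ((1 + δ) / (1 + δ / 2))) :=
          mul_le_mul_of_nonneg_left h6 (by linarith)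
      _ = (1 + δ) * k := by field_simp
  · have h7 : (k' : ℝ) ^ 2 ≤ k ^ 2 * ((1 / 2 - ε) / (1 / 2 - 2 * ε)) := by
      calc (k' : ℝ) ^ 2 ≤ (k * (((n : ℝ) / ((n - 1 : ℕ) : ℝ)) ^ 4)) ^ 2 :=
            pow_le_pow_left₀ (Nat.cast_nonneg _) hratio 2
        _ = k ^ 2 * ((((n : ℝ) / ((n - 1 : ℕ) : ℝ)) ^ 4) ^ 2) := by ring
        _ ≤ _ := mul_le_mul_of_nonneg_left a3.le (by positivity)
    have hpos : (0 : ℝ) < 1 / 2 - 2 * ε := by linarith
    calc (w.length : ℝ) ≤ (1 / 2 - 2 * ε) * ((k' : ℝ) ^ 2) := hw3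
      _ ≤ (1 / 2 - 2 * ε) * (k ^ 2 * ((1 / 2 - ε) / (1 / 2 - 2 * ε))) :=
          mul_le_mul_of_nonneg_left h7 hpos.le
      _ = _ := by
          have hne : (1 / 2 - 2 * ε : ℝ) ≠ 0 := hpos.ne'
          generalize (1 / 2 - 2 * ε : ℝ) = q at hne ⊢
          generalize (1 / 2 - ε : ℝ) = q2
          field_simp


/-- For every `C > 1`: a superpattern over `⌊C k⌋` letters with quadratic saving. -/
theorem main_C (C : ℝ) (hC : 1 < C) : ∃ K : ℕ, ∀ k : ℕ, K ≤ k → ∃ w : List ℕ,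
    (∀ x ∈ w, x < ⌊C * (k : ℝ)⌋₊) ∧
    (∀ σ : Equiv.Perm (Fin k), ∃ e : Fin k → Fin w.length,
          StrictMono e ∧ ∀ i j : Fin k, (w.get (e i) < w.get (e j) ↔ σ i < σ j)) ∧
    (w.length : ℝ) ≤ (1 / 2 - (min (C - 1) 1) ^ 2 / 10 ^ 25) * ((k : ℝ) ^ 2) := by
  have hδ : 0 < min (C - 1) 1 := lt_min (by linarith) one_pos
  obtain ⟨ε, hε, K, hK⟩ := main_allq (min (C - 1) 1) hδ (min_le_right _ _)
  refine ⟨K, fun k hk => ?_⟩
  obtain ⟨w, h1, h2, h3⟩ := hK k hk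
  refine ⟨w, fun x hx => lt_of_lt_of_le (h1 x hx) ?_, h2, h3.trans ?_⟩
  · apply Nat.floor_le_floor
    apply mul_le_mul_of_nonneg_right _ (Nat.cast_nonneg k)
    have := min_le_left (C - 1) 1
    linarith
  · apply mul_le_mul_of_nonneg_right _ (by positivity)
    linarith

end Pool.Agent.Y942.SP
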